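import Pool.Agent.helper81.PJ.Spec2

/-!
# Row pj:DPG: the dense cells, all moments
-/

set_option autoImplicit false

open Finset

namespace Pool.Agent.PJ

open Finset Pool.Agent.PY2

/-- the numerical part -/
theorem DPG_num (j : ℕ) (V W a b n p T L S1 S2 S3 K : ℝ) (hV : 1 ≤ V) (ha : 0 ≤ a) (hb : 0 ≤ b)
    (_hn : 0 ≤ n) (hp : 0 < p) (hT : 1 ≤ T) (hL : 0 < L) (hK : 0 ≤ K)
    (hS1 : 0 ≤ S1) (hS1' : S1 ≤ 3 * n * b) (hS2 : 0 ≤ S2)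
    (hS2' : S2 ≤ 10 ^ 4 * (3 * n) ^ 2 * b ^ 2 / p + 10 ^ 5 * T * (3 * n) ^ 2 * b / L)
    (hS3' : S3 ≤ (2 * a) ^ (2 * j + 3) * (K * V ^ (j + 1) * p))
    (hm : (V * W) ^ (2 * j + 2) ≤ S1 ^ (2 * j) * S2 * S3) :
    V ^ (j + 1) * W ^ (2 * j + 2) ≤ (3 ^ (2 * j) * (9 * 10 ^ 5) * 2 ^ (2 * j + 3) * K) *
      a ^ (2 * j + 3) * T * (n ^ (2 * j + 2) * b ^ (2 * j + 1) * (b + p / L)) := by
  have hV0 : 0 < V := by linarith
  have hpow : 0 < V ^ (j + 1) := pow_pos hV0 _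
  have h1 : S1 ^ (2 * j) ≤ (3 * n * b) ^ (2 * j) := pow_le_pow_left₀ hS1 hS1' _
  have h2 : S2 * p ≤ 9 * 10 ^ 5 * T * n ^ 2 * b * (b + p / L) := by
    have e1 : (10 ^ 4 * (3 * n) ^ 2 * b ^ 2 / p + 10 ^ 5 * T * (3 * n) ^ 2 * b / L) * p =
        9 * 10 ^ 4 * (n ^ 2 * b ^ 2) + 9 * 10 ^ 5 * T * n ^ 2 * b * (p / L) := by
      field_simp
      ring
    have e2 : S2 * p ≤ (10 ^ 4 * (3 * n) ^ 2 * b ^ 2 / p + 10 ^ 5 * T * (3 * n) ^ 2 * b / L) * p :=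
      mul_le_mul_of_nonneg_right hS2' hp.le
    have e3 : 0 ≤ n ^ 2 * b ^ 2 := by positivity
    have e4 : n ^ 2 * b ^ 2 ≤ T * (n ^ 2 * b ^ 2) := le_mul_of_one_le_left e3 hT
    rw [e1] at e2
    nlinarith
  have hr1 : 0 ≤ (2 * a) ^ (2 * j + 3) * (K * V ^ (j + 1)) := by positivity
  have h3 : S2 * S3 ≤ (2 * a) ^ (2 * j + 3) * (K * V ^ (j + 1)) *
      (9 * 10 ^ 5 * T * n ^ 2 * b * (b + p / L)) := by
    calc S2 * S3 ≤ S2 * ((2 * a) ^ (2 * j + 3) * (K * V ^ (j + 1) * p)) :=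
          mul_le_mul_of_nonneg_left hS3' hS2
      _ = (2 * a) ^ (2 * j + 3) * (K * V ^ (j + 1)) * (S2 * p) := by ring
      _ ≤ _ := mul_le_mul_of_nonneg_left h2 hr1
  have hr2 : 0 ≤ (2 * a) ^ (2 * j + 3) * (K * V ^ (j + 1)) *
      (9 * 10 ^ 5 * T * n ^ 2 * b * (b + p / L)) := by
    have : 0 ≤ T := by linarith
    positivity
  have h4 : (V * W) ^ (2 * j + 2) ≤ (3 * n * b) ^ (2 * j) * ((2 * a) ^ (2 * j + 3) *
      (K * V ^ (j + 1)) * (9 * 10 ^ 5 * T * n ^ 2 * b * (b + p / L))) := by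
    calc (V * W) ^ (2 * j + 2) ≤ S1 ^ (2 * j) * S2 * S3 := hm
      _ = S1 ^ (2 * j) * (S2 * S3) := by ring
      _ ≤ S1 ^ (2 * j) * ((2 * a) ^ (2 * j + 3) *
          (K * V ^ (j + 1)) * (9 * 10 ^ 5 * T * n ^ 2 * b * (b + p / L))) :=
          mul_le_mul_of_nonneg_left h3 (pow_nonneg hS1 _)
      _ ≤ _ := mul_le_mul_of_nonneg_right h1 hr2
  have h5 : V ^ (j + 1) * (V ^ (j + 1) * W ^ (2 * j + 2)) ≤ V ^ (j + 1) *
      ((3 ^ (2 * j) * (9 * 10 ^ 5) * 2 ^ (2 * j + 3) * K) *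
      a ^ (2 * j + 3) * T * (n ^ (2 * j + 2) * b ^ (2 * j + 1) * (b + p / L))) := by
    have e1 : V ^ (j + 1) * (V ^ (j + 1) * W ^ (2 * j + 2)) = (V * W) ^ (2 * j + 2) := by
      rw [mul_pow]
      ring
    rw [e1]
    refine h4.trans (le_of_eq ?_)
    rw [mul_pow, mul_pow, mul_pow]
    ring
  exact le_of_mul_le_mul_left h5 hpow

/-- Row pj:DPG -/
theorem DPG (hMAX : MAX_stmt) (hNU1 : NU1_stmt) (hMO1 : MO1_stmt) (hMASS : MASS_stmt)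
    (hCOL : COL_stmt) (hHOL : HOL_stmt) : DPG_stmt := by
  intro k hk
  obtain ⟨j, rfl⟩ : ∃ j, k = j + 1 := ⟨k - 1, by omega⟩
  have hK : (0 : ℝ) < ((j + 1 : ℕ) : ℝ) ^ (2 * (j + 1)) + 4 * ((j + 1 : ℕ) : ℝ) := by positivity
  refine ⟨3 ^ (2 * j) * (9 * 10 ^ 5) * 2 ^ (2 * j + 3) *
    (((j + 1 : ℕ) : ℝ) ^ (2 * (j + 1)) + 4 * ((j + 1 : ℕ) : ℝ)), by positivity, ?_⟩
  intro p _ χ hχ N L n T B hL hN h72 hVp hWp hdiv
  have hp : Nat.Prime p := Fact.out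
  have hp0 : (0 : ℝ) < p := by exact_mod_cast hp.pos
  have hV1 : 1 ≤ 2 ^ n := Nat.one_le_two_pow
  have hLN : L ≤ N := le_trans (Nat.le_mul_of_pos_left L (by positivity)) hN
  have hLp : L ≤ p := by omega
  have hT1 : 1 ≤ T := by
    have := hdiv 1 le_rfl hp.one_lt.le
    simpa using this
  have hnu := hMASS p (3 * N) L B hL
  have hg : ∀ x : ZMod p, 0 ≤ mj (j + 1) n (c1 χ x) := fun x => (hMAX (j + 1) n (c1 χ x) hk).1
  have hNU := hNU1 p χ (j + 1) N L n B hk hL hLp hN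
  have hH := hHOL p (nu B (3 * N) L) (fun x => mj (j + 1) n (c1 χ x)) (j + 1) hk hnu.1 hg
  have hC := hCOL p (3 * N) L T B hL (by omega) (by omega) hdiv
  have hM := hMO1 p χ hχ (j + 1) n hk hWp
  have hW0 : 0 ≤ WW χ B N L := by
    unfold WW
    exact Finset.sum_nonneg fun i _ => mul_nonneg (inv_nonneg.mpr (Nat.cast_nonneg _))
      (Finset.sum_nonneg fun z _ => norm_nonneg _)
  have hVk : ((2 : ℝ) ^ n) ^ (j + 1) ≤ Real.sqrt p := by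
    refine Real.le_sqrt_of_sq_le ?_
    have : (((2 ^ n) ^ (2 * (j + 1)) : ℕ) : ℝ) ≤ p := by exact_mod_cast hVp
    push_cast at this
    calc (((2 : ℝ) ^ n) ^ (j + 1)) ^ 2 = ((2 : ℝ) ^ n) ^ (2 * (j + 1)) := by ring
      _ ≤ p := this
  have hsq : Real.sqrt p * Real.sqrt p = p := Real.mul_self_sqrt hp0.le
  have hs0 : 0 ≤ Real.sqrt p := Real.sqrt_nonneg _
  have hS3 : ∑ x : ZMod p, mj (j + 1) n (c1 χ x) ^ (2 * (j + 1)) ≤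
      (2 * ((n : ℝ) + 1)) ^ (2 * j + 3) *
        ((((j + 1 : ℕ) : ℝ) ^ (2 * (j + 1)) + 4 * ((j + 1 : ℕ) : ℝ)) * ((2 : ℝ) ^ n) ^ (j + 1) * p) := by
    refine hM.trans ?_
    have e1 : 2 * (j + 1) + 1 = 2 * j + 3 := by ring
    rw [e1]
    refine mul_le_mul_of_nonneg_left ?_ (by positivity)
    have e2 : ((2 : ℝ) ^ n) ^ (2 * (j + 1)) * Real.sqrt p ≤ ((2 : ℝ) ^ n) ^ (j + 1) * p := by
      calc ((2 : ℝ) ^ n) ^ (2 * (j + 1)) * Real.sqrt p =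
            ((2 : ℝ) ^ n) ^ (j + 1) * (((2 : ℝ) ^ n) ^ (j + 1) * Real.sqrt p) := by ring
        _ ≤ ((2 : ℝ) ^ n) ^ (j + 1) * (Real.sqrt p * Real.sqrt p) :=
            mul_le_mul_of_nonneg_left (mul_le_mul_of_nonneg_right hVk hs0) (by positivity)
        _ = _ := by rw [hsq]
    have e3 : (0 : ℝ) ≤ 4 * ((j + 1 : ℕ) : ℝ) := by positivity
    have e4 := mul_le_mul_of_nonneg_left e2 e3
    have e5 : ((2 : ℝ) ^ n) ^ (2 * (j + 1)) * (4 * ((j + 1 : ℕ) : ℝ) * Real.sqrt p) =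
        4 * ((j + 1 : ℕ) : ℝ) * (((2 : ℝ) ^ n) ^ (2 * (j + 1)) * Real.sqrt p) := by ring
    rw [e5]
    calc _ ≤ ((j + 1 : ℕ) : ℝ) ^ (2 * (j + 1)) * ((2 : ℝ) ^ n) ^ (j + 1) * p +
          4 * ((j + 1 : ℕ) : ℝ) * (((2 : ℝ) ^ n) ^ (j + 1) * p) := by linarith
      _ = _ := by ring
  have hmain : ((2 : ℝ) ^ n * WW χ B N L) ^ (2 * j + 2) ≤
      (∑ x : ZMod p, nu B (3 * N) L x) ^ (2 * j) * (∑ x : ZMod p, nu B (3 * N) L x ^ 2) *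
        ∑ x : ZMod p, mj (j + 1) n (c1 χ x) ^ (2 * (j + 1)) := by
    have e1 : 2 * (j + 1) - 2 = 2 * j := by omega
    have e2 : 2 * (j + 1) = 2 * j + 2 := by ring
    rw [e1] at hH
    rw [← e2]
    exact (pow_le_pow_left₀ (mul_nonneg (by positivity) hW0) hNU _).trans hH
  have hS1 := hnu.2
  push_cast at hS1 hC
  have hres := DPG_num j ((2 : ℝ) ^ n) (WW χ B N L) ((n : ℝ) + 1) (B.card : ℝ) (N : ℝ) (p : ℝ)
    (T : ℝ) (L : ℝ) _ _ _ (((j + 1 : ℕ) : ℝ) ^ (2 * (j + 1)) + 4 * ((j + 1 : ℕ) : ℝ))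
    (one_le_pow₀ (by norm_num)) (by positivity) (by positivity) (by positivity) hp0
    (by exact_mod_cast hT1) (by exact_mod_cast hL) hK.le
    (Finset.sum_nonneg fun x _ => hnu.1 x) hS1 (Finset.sum_nonneg fun x _ => sq_nonneg _) hC hS3
    hmain
  have e1 : 2 * (j + 1) = 2 * j + 2 := by ring
  have e2 : 2 * (j + 1) + 1 = 2 * j + 3 := by ring
  have e3 : 2 * (j + 1) - 1 = 2 * j + 1 := by omega
  rw [e2, e3]
  simpa only [e1] using hres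

end Pool.Agent.PJ
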